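import Pool.Agent.H444.CA.Stm9
import Pool.Agent.H348.CA.PPOW

/-!
# LOWP (project CA of helper444): lower bound of the fractional moments
-/

set_option autoImplicit false

namespace Pool.Agent.H351.CA

open Filter Topology MeasureTheory Set ProbabilityTheory
open Pool.Agent.H444.CA (cP uP)

/-- Minkowski and concavity of the power -/
theorem g_le' (p a b : ℝ) (hp0 : 0 < p) (hp1 : p < 1) :
    (1 + (a + b) ^ 2) ^ (p / 2) ≤ (1 + a ^ 2) ^ (p / 2) + |b| ^ p := by
  have e : ∀ y : ℝ, (1 + y ^ 2) ^ (p / 2) = (√(1 + y ^ 2)) ^ p := by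
    intro y
    rw [Real.sqrt_eq_rpow, ← Real.rpow_mul (by positivity)]
    congr 1
    ring
  rw [e, e]
  have h1 : √(1 + (a + b) ^ 2) ≤ √(1 + a ^ 2) + |b| := by
    rw [Real.sqrt_le_left (by positivity)]
    have h2 : |a| ≤ √(1 + a ^ 2) := by
      rw [← Real.sqrt_sq_eq_abs]
      exact Real.sqrt_le_sqrt (by linarith)
    have h3 : √(1 + a ^ 2) ^ 2 = 1 + a ^ 2 := Real.sq_sqrt (by positivity)
    have h4 : a * b ≤ √(1 + a ^ 2) * |b| := by
      calc a * b ≤ |a * b| := le_abs_self _
        _ = |a| * |b| := abs_mul a b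
        _ ≤ _ := mul_le_mul_of_nonneg_right h2 (abs_nonneg b)
    nlinarith [sq_abs b]
  calc √(1 + (a + b) ^ 2) ^ p ≤ (√(1 + a ^ 2) + |b|) ^ p :=
        Real.rpow_le_rpow (Real.sqrt_nonneg _) h1 hp0.le
    _ ≤ _ := Real.rpow_add_le_add_rpow (Real.sqrt_nonneg _) (abs_nonneg b) hp0.le hp1.le

/-- tangent line of the power -/
theorem tangent (p a x : ℝ) (hp0 : 0 < p) (hp1 : p < 1) (ha : 0 < a) (hx : 0 ≤ x) :
    x ^ p ≤ a ^ p + p * a ^ p / a * (x - a) := by
  have h1 := rpow_one_add_le_one_add_mul_self (s := x / a - 1)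
    (by have : 0 ≤ x / a := by positivity
        linarith) hp0.le hp1.le
  have h2 : 1 + (x / a - 1) = x / a := by ring
  rw [h2, Real.div_rpow hx ha.le, div_le_iff₀ (Real.rpow_pos_of_pos ha p)] at h1
  refine h1.trans (le_of_eq ?_)
  field_simp

/-- the truncated function -/
noncomputable def vM (p M x : ℝ) : ℝ := min ((1 + x ^ 2) ^ (p / 2)) M

theorem vM_cont (p M : ℝ) : Continuous (vM p M) := by
  unfold vM
  refine Continuous.min ?_ continuous_const
  apply Continuous.rpow_const (by fun_prop)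
  intro x
  left
  positivity

theorem vM_nonneg (p M : ℝ) (hM : 0 ≤ M) (x : ℝ) : 0 ≤ vM p M x :=
  le_min (by positivity) hM

theorem vM_le (p M : ℝ) (x : ℝ) : vM p M x ≤ M := min_le_right _ _

theorem vM_le' (p M : ℝ) (x : ℝ) : vM p M x ≤ (1 + x ^ 2) ^ (p / 2) := min_le_left _ _

/-- the truncated mean converges -/
theorem vM_lim (p : ℝ) (hp1 : p < 1) :
    Tendsto (fun n : ℕ => ∫ x, vM p n x ∂(cauchyMeasure 0 1)) atTop (𝓝 (cP p)) := by
  have h0 : cP p = ∫ x, (1 + x ^ 2) ^ (p / 2) ∂(cauchyMeasure 0 1) := by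
    rw [← Pool.Agent.H348.CA.uP_one]
    unfold uP
    simp only [zero_add, one_mul]
  rw [h0]
  refine tendsto_integral_of_dominated_convergence (fun x => (1 + x ^ 2) ^ (p / 2))
    (fun n => (vM_cont p n).aestronglyMeasurable) (Pool.Agent.H348.CA.int_one p hp1)
    (fun n => Eventually.of_forall fun x => ?_) (Eventually.of_forall fun x => ?_)
  · rw [Real.norm_eq_abs, abs_of_nonneg (vM_nonneg p n (Nat.cast_nonneg n) x)]
    exact vM_le' p n x
  · refine tendsto_const_nhds.congr' ?_
    obtain ⟨N, hN⟩ := exists_nat_ge ((1 + x ^ 2) ^ (p / 2))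
    filter_upwards [eventually_ge_atTop N] with n hn
    unfold vM
    rw [min_eq_left]
    exact hN.trans (by exact_mod_cast hn)

/-- the pointwise bound -/
theorem inner_le (h2 : Pool.Agent.H444.CA.S_ABSP) (p : ℝ) (hp0 : 0 < p) (hp1 : p < 1) (M : ℝ)
    (hM : 0 ≤ M) (h r : ℝ) (hr : 0 ≤ r) :
    ∫ x, vM p M (h + r * x) ∂(cauchyMeasure 0 1) ≤
      (1 + h ^ 2) ^ (p / 2) + r ^ p * (1 / Real.cos (p * Real.pi / 2)) := by
  obtain ⟨hi, he⟩ := h2 p hp0 hp1
  have h3 : ∫ x, ((1 + h ^ 2) ^ (p / 2) + r ^ p * |x| ^ p) ∂(cauchyMeasure 0 1) =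
      (1 + h ^ 2) ^ (p / 2) + r ^ p * (1 / Real.cos (p * Real.pi / 2)) := by
    rw [integral_add (integrable_const _) (hi.const_mul _), integral_const_mul, he]
    simp
  rw [← h3]
  refine integral_mono_of_nonneg (Eventually.of_forall fun x => vM_nonneg p M hM _)
    ((integrable_const _).add (hi.const_mul _)) (Eventually.of_forall fun x => ?_)
  refine (vM_le' p M _).trans ((g_le' p h (r * x) hp0 hp1).trans (le_of_eq ?_))
  rw [abs_mul, Real.mul_rpow (abs_nonneg _) (abs_nonneg _), abs_of_nonneg hr]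

theorem t_LOWP (h1 : Pool.Agent.H444.CA.S_MAXL) (h2 : Pool.Agent.H444.CA.S_ABSP) :
    Pool.Agent.H444.CA.S_LOWP := by
  intro r h hm hrc hr0 hcf κ hκ hmean p hp0 hp1 hint ε hε
  have hcos : 0 < Real.cos (p * Real.pi / 2) := by
    apply Real.cos_pos_of_mem_Ioo
    constructor
    · have := Real.pi_pos
      nlinarith [mul_pos hp0 this]
    · have := Real.pi_pos
      nlinarith
  obtain ⟨cc, hcc⟩ : ∃ cc : ℝ, cc = 1 / Real.cos (p * Real.pi / 2) := ⟨_, rfl⟩
  have hcc0 : 0 < cc := by rw [hcc]; positivity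
  -- the truncation
  obtain ⟨N, hN⟩ := ((vM_lim p hp1).eventually_const_lt
    (show cP p - ε / 3 < cP p by linarith)).exists
  -- the limit
  have hlim := h1 r h hm hrc hr0 hcf (vM p N) (vM_cont p N) ⟨N, fun x => by
    rw [abs_of_nonneg (vM_nonneg p N (Nat.cast_nonneg N) x)]
    exact vM_le p N x⟩
  have hlim' := hlim.eventually_const_lt
    (show (∫ x, vM p N x ∂(cauchyMeasure 0 1)) - ε / 3 < ∫ x, vM p N x ∂(cauchyMeasure 0 1) by
      linarith)
  -- the power of the mean
  have hcontp : Tendsto (fun e : ℝ => cc * (κ + e) ^ p) (𝓝[>] 0) (𝓝 (cc * κ ^ p)) := by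
    have h3 : ContinuousAt (fun e : ℝ => cc * (κ + e) ^ p) 0 := by
      refine ContinuousAt.mul continuousAt_const ?_
      have h4 : ContinuousAt (fun e : ℝ => κ + e) 0 := by fun_prop
      exact h4.rpow_const (Or.inr hp0.le)
    have h5 : Tendsto (fun e : ℝ => cc * (κ + e) ^ p) (𝓝 0) (𝓝 (cc * κ ^ p)) := by
      have := h3.tendsto
      rwa [add_zero] at this
    exact h5.mono_left nhdsWithin_le_nhds
  obtain ⟨e, he1, he2⟩ := ((hcontp.eventually_lt_const
    (show cc * κ ^ p < cc * κ ^ p + ε / 3 by linarith)).and self_mem_nhdsWithin).exists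
  have he0 : (0 : ℝ) < e := he2
  filter_upwards [hlim', hmean e he0, hint, eventually_ge_atTop 1] with T hT1 hT2 hT3 hT4
  have hT0 : (0 : ℝ) < T := by linarith
  have hTT : T ≤ 2 * T := by linarith
  have hrp : IntervalIntegrable (fun t => r T t ^ p) volume T (2 * T) := by
    apply Continuous.intervalIntegrable
    exact (hrc T).rpow_const fun t => Or.inr hp0.le
  have hri : IntervalIntegrable (fun t => r T t) volume T (2 * T) :=
    (hrc T).intervalIntegrable _ _
  have hmono : ∫ t in T..(2 * T), (∫ x, vM p N (h T t + r T t * x) ∂(cauchyMeasure 0 1)) ≤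
      ∫ t in T..(2 * T), ((1 + h T t ^ 2) ^ (p / 2) + r T t ^ p * cc) := by
    rw [intervalIntegral.integral_of_le hTT, intervalIntegral.integral_of_le hTT]
    refine integral_mono_of_nonneg (Eventually.of_forall fun t => ?_) ?_
      (Eventually.of_forall fun t => ?_)
    · exact integral_nonneg fun x => vM_nonneg p N (Nat.cast_nonneg N) _
    · exact (hT3.add (hrp.mul_const cc)).1
    · change ∫ x, vM p N (h T t + r T t * x) ∂(cauchyMeasure 0 1) ≤
        (1 + h T t ^ 2) ^ (p / 2) + r T t ^ p * cc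
      rw [hcc]
      exact inner_le h2 p hp0 hp1 N (Nat.cast_nonneg N) _ _ (hr0 T t hT4)
  have hsplit : ∫ t in T..(2 * T), ((1 + h T t ^ 2) ^ (p / 2) + r T t ^ p * cc) =
      (∫ t in T..(2 * T), (1 + h T t ^ 2) ^ (p / 2)) + (∫ t in T..(2 * T), r T t ^ p) * cc := by
    rw [intervalIntegral.integral_add hT3 (hrp.mul_const cc),
      intervalIntegral.integral_mul_const]
  have ha : 0 < κ + e := by linarith
  have hjen : ∫ t in T..(2 * T), r T t ^ p ≤ (κ + e) ^ p * T := by
    have h3 : ∫ t in T..(2 * T), r T t ^ p ≤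
        ∫ t in T..(2 * T), ((κ + e) ^ p + p * (κ + e) ^ p / (κ + e) * (r T t - (κ + e))) := by
      refine intervalIntegral.integral_mono_on hTT hrp ?_ fun t _ =>
        tangent p (κ + e) (r T t) hp0 hp1 ha (hr0 T t hT4)
      exact (intervalIntegrable_const).add
        ((hri.sub intervalIntegrable_const).const_mul _)
    have h4 : ∫ t in T..(2 * T), ((κ + e) ^ p + p * (κ + e) ^ p / (κ + e) * (r T t - (κ + e))) =
        (κ + e) ^ p * T + p * (κ + e) ^ p / (κ + e) * ((∫ t in T..(2 * T), r T t) - (κ + e) * T) := by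
      rw [intervalIntegral.integral_add intervalIntegrable_const
        ((hri.sub intervalIntegrable_const).const_mul _), intervalIntegral.integral_const_mul,
        intervalIntegral.integral_sub hri intervalIntegrable_const,
        intervalIntegral.integral_const, intervalIntegral.integral_const, smul_eq_mul, smul_eq_mul]
      ring
    rw [h4] at h3
    have h5 : p * (κ + e) ^ p / (κ + e) * ((∫ t in T..(2 * T), r T t) - (κ + e) * T) ≤ 0 := by
      apply mul_nonpos_of_nonneg_of_nonpos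
      · have := Real.rpow_pos_of_pos ha p
        positivity
      · linarith
    linarith
  have hfin : (1 / T) * ∫ t in T..(2 * T), (∫ x, vM p N (h T t + r T t * x) ∂(cauchyMeasure 0 1)) ≤
      (1 / T) * (∫ t in T..(2 * T), (1 + h T t ^ 2) ^ (p / 2)) + cc * (κ + e) ^ p := by
    have h3 : (1 / T) * ∫ t in T..(2 * T), (∫ x, vM p N (h T t + r T t * x) ∂(cauchyMeasure 0 1)) ≤
        (1 / T) * ((∫ t in T..(2 * T), (1 + h T t ^ 2) ^ (p / 2)) + ((κ + e) ^ p * T) * cc) := by
      refine mul_le_mul_of_nonneg_left ?_ (by positivity)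
      refine hmono.trans ?_
      rw [hsplit]
      have := mul_le_mul_of_nonneg_right hjen hcc0.le
      linarith
    refine h3.trans (le_of_eq ?_)
    field_simp
  have hk : κ ^ p / Real.cos (p * Real.pi / 2) = cc * κ ^ p := by
    rw [hcc]
    ring
  rw [hk]
  linarith

end Pool.Agent.H351.CA
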